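import Pool.Agent.MWNP.Stmts
import Pool.Agent.Helper49_MWN.N4A

/-!
# Row P4A of block MWNP (helper37)
-/

set_option autoImplicit false

namespace Pool.Agent.MWNP.H37

open Pool.Agent.Helper14_MV Pool.Agent.Helper2_MV Pool.Agent.MVO Pool.Agent.MWL Pool.Agent.MWS
  Pool.Agent.MWF Pool.Agent.MWN Pool.Agent.MWNP
open Pool.Agent.MWN.H49 (Ub Vb okU okV twU twV)

theorem rr_trans {β : FIC} {l m n : List ℕ} (h : RR β l m) (h' : RR β m n) : RR β l n :=
  β.trans h h'

/-- four letters at the end can be reduced to two, if both words end with them -/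
theorem red4 {n : ℕ} {β : FIC} (hD : PddStmt) (hH : HBP n β) {p q : List ℕ}
    (h : RR β (p ++ [0, 0, 0, 0]) (q ++ [0, 0, 0, 0])) : RR β (p ++ [0, 0]) (q ++ [0, 0]) := by
  have h1 := h.append (RR.refl (β := β) (List.replicate (2 * n - 2) 0))
  have hn := hH.pos
  have e : ∀ w : List ℕ, RR β (w ++ [0, 0, 0, 0] ++ List.replicate (2 * n - 2) 0) (w ++ [0, 0]) := by
    intro w
    have h2 := (hD n β hH).2 w [] 0 (2 * n + 2) 2 (by omega) le_rfl (by
      unfold Nat.ModEq
      rw [Nat.mul_add_mod_self_right])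
    rw [List.append_nil, List.append_nil] at h2
    have h3 : w ++ [0, 0, 0, 0] ++ List.replicate (2 * n - 2) 0 =
        w ++ List.replicate (2 * n + 2) 0 := by
      rw [List.append_assoc]
      congr 1
      have h4 : ([0, 0, 0, 0] : List ℕ) = List.replicate 4 0 := rfl
      rw [h4, ← List.replicate_add]
      congr 1
      omega
    rw [h3]
    exact h2
  exact rr_trans (e p).symm (rr_trans h1 (e q))

/-- clause C3a from the failure of C4a -/
theorem c3a (hP : PphStmt) (hX : PcxStmt) (hO : PcoStmt) (hN : PddStmt) (hA : ArrStmt)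
    (hB : PhbStmt) {n : ℕ} {β : FIC} (hH : HBP n β)
    (hI : Iso3 β) (hM : ModF β) (hJ : ¬ Op n β (Bit.J 3)) (h4 : ¬ C4a β) (st : Bool) :
    C3a β st := by
  by_contra h3
  have hF : ¬ Op n β Bit.F := by
    intro hF
    apply h3
    have hab : Ab n (FC.ofFIC β) 2 (wo 1 (ty (Ub st) 0)) 1 := by
      refine (FC.ofFIC β).ext (a := v3 2 0 2) (b := ad n (v3 2 0 2) 1) ?_ ?_ hF
      · intro j hj
        cases st <;> interval_cases j <;> rfl
      · intro j hj
        cases st <;> interval_cases j <;> rfl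
    have := hO n β hH hI 2 (Ub st) Vb 0 1 1 (okU st) okV (twU st) twV
      (by intro j hj; cases st <;> interval_cases j <;> simp [ty, Ub, Vb])
      (by intro j hj; cases st <;> interval_cases j <;> simp [ty, Ub, Vb])
      (Or.inl ⟨rfl, rfl⟩) (by norm_num) (by cases st <;> simp [Ub])
      (by cases st <;> decide) (by decide) hab
    cases st
    · exact this
    · exact this
  obtain ⟨hEF, hGF, -⟩ := hA n (FC.ofFIC β) (hB n β hH hI).2.2.1
  have hE : ¬ Op n β Bit.E := fun h => hF (hEF h)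
  have hG : ¬ Op n β Bit.G := fun h => hF (hGF h)
  have key := hP n β hH hI hM 3 0 (cd4 Cd.one Cd.z Cd.one Cd.one) (cd4 Cd.one Cd.one Cd.z Cd.z)
    (cd4 Cd.pos Cd.z Cd.any Cd.any) (cd4 Cd.one Cd.one Cd.z Cd.z) st
    (v4 2 0 2 2) (v4 1 0 1 1) (v4 1 1 0 0) (v4 1 1 0 0) (by decide +kernel) (by decide) (by decide)
    (by decide) (by decide)
    (hX n β hH hI [8, 10] 3 _ (by simp; exact hJ) (by decide +kernel))
    (hX n β hH hI [8] 3 _ (by simp) (by decide +kernel))
    (hX n β hH hI [8, 10, 0, 1, 2] 3 _ (by simp; exact ⟨hJ, hE, hF, hG⟩) (by decide +kernel))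
    (hX n β hH hI [8] 3 _ (by simp) (by decide +kernel))
  rcases key with key | key
  · exfalso
    apply h4
    cases st
    · have h : RR β [0, 1, 2, 1, 3, 0, 4, 0] [1, 0, 2, 1, 3, 0, 4, 0] := key
      exact h.filter (fun c => decide (c ≠ 4))
    · have h : RR β [1, 0, 2, 1, 3, 0, 4, 0] [0, 1, 2, 1, 3, 0, 4, 0] := key
      exact (h.filter (fun c => decide (c ≠ 4))).symm
  · apply h3
    cases st
    · have h : RR β [0, 0, 1, 2, 1, 3, 0, 0, 4, 0, 0] [0, 1, 0, 2, 1, 3, 0, 0, 4, 0, 0] := key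
      have h' : RR β ([0, 0, 1, 2, 1, 3] ++ [0, 0, 0, 0]) ([0, 1, 0, 2, 1, 3] ++ [0, 0, 0, 0]) :=
        h.filter (fun c => decide (c ≠ 4))
      exact red4 hN hH h'
    · have h : RR β [1, 0, 0, 2, 1, 3, 0, 0, 4, 0, 0] [0, 1, 0, 2, 1, 3, 0, 0, 4, 0, 0] := key
      have h' : RR β ([1, 0, 0, 2, 1, 3] ++ [0, 0, 0, 0]) ([0, 1, 0, 2, 1, 3] ++ [0, 0, 0, 0]) :=
        h.filter (fun c => decide (c ≠ 4))
      exact red4 hN hH h'

/-- the blocks of the word with `2 n + 1` letters in block `0`, all but one before the letter `1`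
(`A = true`: one before, the rest behind) -/
def Wb (p q : ℕ) : ℕ → List ℕ := fun j =>
  if j = 0 then List.replicate p 0 ++ 1 :: List.replicate q 0 else if j = 1 then [1] else
    if j = 2 then [0, 0] else []

theorem asm_Wb (p q : ℕ) : asm 2 (Wb p q) =
    (List.replicate p 0 ++ 1 :: List.replicate q 0) ++ [2, 1, 3, 0, 0] := by
  simp [asm, Wb]

theorem mem_Wb {p q j c : ℕ} (h : c ∈ Wb p q j) : c = 0 ∨ c = 1 := by
  unfold Wb at h
  by_cases h0 : j = 0
  · rw [if_pos h0] at h
    simp only [List.mem_append, List.mem_cons, List.mem_replicate] at h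
    omega
  · rw [if_neg h0] at h
    by_cases h1 : j = 1
    · rw [if_pos h1] at h
      simp only [List.mem_singleton] at h
      omega
    · rw [if_neg h1] at h
      by_cases h2 : j = 2
      · rw [if_pos h2] at h
        simp only [List.mem_cons, List.not_mem_nil, or_false] at h
        omega
      · rw [if_neg h2] at h
        simp at h

theorem ty0 (p q : ℕ) : ty (Wb p q) 0 = fun j => if j = 0 then p + q else if j = 2 then 2 else 0 := by
  funext j
  unfold ty Wb
  by_cases h0 : j = 0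
  · subst h0
    simp
  · by_cases h1 : j = 1
    · subst h1; simp
    · by_cases h2 : j = 2
      · subst h2; simp
      · simp [h0, h1, h2]

theorem ty1 (p q : ℕ) : ty (Wb p q) 1 = fun j => if j = 0 then 1 else if j = 1 then 1 else 0 := by
  funext j
  unfold ty Wb
  by_cases h0 : j = 0
  · subst h0
    simp [List.count_replicate]
  · by_cases h1 : j = 1
    · subst h1; simp
    · by_cases h2 : j = 2
      · subst h2; simp
      · simp [h0, h1, h2]

theorem okW (p q : ℕ) : OkB 2 (Wb p q) := by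
  constructor
  · intro j hj c hc
    unfold NS
    have := mem_Wb hc
    omega
  · intro j hj c hc
    rcases mem_Wb hc with rfl | rfl
    · have h := ty0 p q
      unfold ty at h
      rw [h]
      unfold deg
      simp only [Finset.sum_range_succ, Finset.sum_range_zero]
      simp
    · have h := ty1 p q
      unfold ty at h
      rw [h]
      unfold deg
      simp only [Finset.sum_range_succ, Finset.sum_range_zero]
      simp

theorem not_fst {p q : ℕ} (hp : 1 ≤ p) (hq : 1 ≤ q) (st : Bool) : ¬ Fst st (Wb p q 0) := by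
  unfold Fst Wb
  rw [if_pos rfl, not_not]
  have h1 : ∀ m : ℕ, 1 ≤ m → List.Sublist [0] (List.replicate m 0) := by
    intro m hm
    rw [List.singleton_sublist, List.mem_replicate]
    exact ⟨by omega, rfl⟩
  cases st
  · have h2 : List.Sublist [1, 0] (1 :: List.replicate q 0) := (h1 q hq).cons_cons 1
    exact h2.trans (List.sublist_append_right _ _)
  · have h2 : List.Sublist ([0] ++ [1]) (List.replicate p 0 ++ 1 :: List.replicate q 0) := by
      apply (h1 p hp).append
      rw [List.singleton_sublist]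
      exact List.mem_cons_self
    exact h2

theorem swap0 {n : ℕ} {β : FIC} (hH : HBP n β) :
    RR β (asm 2 (Wb (2 * n) 1)) (asm 2 (Wb 1 (2 * n))) := by
  have hn := hH.pos
  apply hH.hst 2 _ _ (okW _ _) (okW _ _) (fun j _ c hc => mem_Wb hc) (fun j _ c hc => mem_Wb hc)
  · intro j _
    left
    rw [ty0, ty0, Nat.add_comm]
  · intro j _
    left
    rw [ty1, ty1]
  · intro i _ _
    by_cases h0 : i = 0
    · subst h0
      exact ⟨iff_of_false (not_fst (by omega) (by omega) _) (not_fst (by omega) (by omega) _),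
        iff_of_false (not_fst (by omega) (by omega) _) (not_fst (by omega) (by omega) _)⟩
    · have e : Wb (2 * n) 1 i = Wb 1 (2 * n) i := by
        unfold Wb
        rw [if_neg h0, if_neg h0]
      rw [e]
      exact ⟨Iff.rfl, Iff.rfl⟩

/-- row P4A -/
theorem p4a (hP : PphStmt) (hX : PcxStmt) (hO : PcoStmt) (hN : PddStmt) (hA : ArrStmt)
    (hB : PhbStmt) : P4aStmt := by
  intro n β hH hI hM hJ
  by_contra h4
  have hn := hH.pos
  by_cases hD : Op n β (Bit.D 0)
  · have h1 := c3a hP hX hO hN hA hB hH hI hM hJ h4 false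
    have h2 := c3a hP hX hO hN hA hB hH hI hM hJ h4 true
    have h1' : RR β [0, 0, 1, 2, 1, 3, 0, 0] [0, 1, 0, 2, 1, 3, 0, 0] := h1
    have h2' : RR β [1, 0, 0, 2, 1, 3, 0, 0] [0, 1, 0, 2, 1, 3, 0, 0] := h2
    obtain ⟨m, hm⟩ : ∃ m, 2 * n = m + 1 := ⟨2 * n - 1, by omega⟩
    have rs : ∀ (k : ℕ) (l : List ℕ), List.replicate (k + 1) 0 ++ l = List.replicate k 0 ++ 0 :: l := by
      intro k l
      rw [List.replicate_succ', List.append_assoc]
      rfl
    -- a
    have ca : RR β [0, 1, 2, 1, 3, 0, 0] (List.replicate (2 * n + 1) 0 ++ [1, 2, 1, 3, 0, 0]) :=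
      (hN n β hH).1 hD [] [1, 2, 1, 3] [] 0
    -- b
    have cb : RR β (List.replicate (2 * n + 1) 0 ++ [1, 2, 1, 3, 0, 0]) (asm 2 (Wb (2 * n) 1)) := by
      rw [asm_Wb]
      have h := (RR.refl (β := β) (List.replicate m 0)).append h1'
      have e1 : List.replicate (2 * n + 1) 0 ++ [1, 2, 1, 3, 0, 0] =
          List.replicate m 0 ++ [0, 0, 1, 2, 1, 3, 0, 0] := by
        rw [hm, rs, rs]
      have e2 : (List.replicate (2 * n) 0 ++ 1 :: List.replicate 1 0) ++ [2, 1, 3, 0, 0] =
          List.replicate m 0 ++ [0, 1, 0, 2, 1, 3, 0, 0] := by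
        rw [hm, rs, List.append_assoc]
        rfl
      rw [e1, e2]
      exact h
    -- c, d
    have cd : RR β (asm 2 (Wb 1 (2 * n))) (1 :: (List.replicate (2 * n + 1) 0 ++ [2, 1, 3, 0, 0])) := by
      rw [asm_Wb]
      have h := h2'.symm.sub (fun c => if c = 2 then List.replicate m 0 ++ [2] else [c])
      have e1 : ([0, 1, 0, 2, 1, 3, 0, 0] : List ℕ).flatMap
          (fun c => if c = 2 then List.replicate m 0 ++ [2] else [c]) =
          (List.replicate 1 0 ++ 1 :: List.replicate (2 * n) 0) ++ [2, 1, 3, 0, 0] := by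
        rw [hm]
        simp [List.replicate_succ]
      have e2 : ([1, 0, 0, 2, 1, 3, 0, 0] : List ℕ).flatMap
          (fun c => if c = 2 then List.replicate m 0 ++ [2] else [c]) =
          1 :: (List.replicate (2 * n + 1) 0 ++ [2, 1, 3, 0, 0]) := by
        rw [hm]
        simp [List.replicate_succ]
      rw [e1, e2] at h
      exact h
    -- e
    have ce : RR β [1, 0, 2, 1, 3, 0, 0] (1 :: (List.replicate (2 * n + 1) 0 ++ [2, 1, 3, 0, 0])) :=
      (hN n β hH).1 hD [1] [2, 1, 3] [] 0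
    exact h4 (rr_trans ca (rr_trans cb (rr_trans (swap0 hH) (rr_trans cd ce.symm))))
  · have key := hP n β hH hI hM 3 0 (cd4 Cd.one Cd.z Cd.one Cd.one) (cd4 Cd.one Cd.one Cd.z Cd.z)
      (cd4 Cd.one Cd.z Cd.any Cd.any) (cd4 Cd.one Cd.one Cd.z Cd.z) false
      (v4 1 0 2 2) (v4 1 0 1 1) (v4 1 1 0 0) (v4 1 1 0 0) (by decide +kernel) (by decide)
      (by decide) (by decide) (by decide)
      (hX n β hH hI [8, 10] 3 _ (by simp; exact hJ) (by decide +kernel))
      (hX n β hH hI [8] 3 _ (by simp) (by decide +kernel))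
      (hX n β hH hI [8, 10, 3] 3 _ (by simp; exact ⟨hJ, hD⟩) (by decide +kernel))
      (hX n β hH hI [8] 3 _ (by simp) (by decide +kernel))
    apply h4
    rcases key with key | key
    · have h : RR β [0, 1, 2, 1, 3, 0, 4, 0] [1, 0, 2, 1, 3, 0, 4, 0] := key
      exact h.filter (fun c => decide (c ≠ 4))
    · have h : RR β [0, 1, 2, 1, 3, 0, 0, 4, 0, 0] [1, 0, 2, 1, 3, 0, 0, 4, 0, 0] := key
      have h' : RR β ([0, 1, 2, 1, 3] ++ [0, 0, 0, 0]) ([1, 0, 2, 1, 3] ++ [0, 0, 0, 0]) :=
        h.filter (fun c => decide (c ≠ 4))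
      exact red4 hN hH h'

end Pool.Agent.MWNP.H37
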